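import Pool.Agent.H149R3.GK.Stmts

set_option autoImplicit false

/-!
# TASK AUT: completing the labels along a circuit (a finite automaton)
-/

namespace Pool.Agent.H149R3.GK

namespace Aut

open Finset

/-- codes of the labels used -/
def labs : List ℕ := [
  24, 49, 27, 51, 32, 50, 62, 88, 25, 31, 61, 83, 2, 56, 7, 55, 0, 6, 60, 78, 5, 12, 10, 1, 11,
  30, 57, 52, 74, 36, 35, 26, 37]

/-- successors of the labels, as bit masks, for the three values on the matching edge -/
def rows0 : List ℕ := [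
  12, 12480, 131073, 2097153, 8389632, 0, 8391170, 75497986, 0, 268439744, 4112, 805310528, 3586,
  4294967298, 2148007936, 0, 0, 4, 0, 16793600, 0, 8, 0, 268435664, 134742016, 0, 536871040,
  16777216, 4303358464, 67110912, 0, 16384, 268443648]

def rows1 : List ℕ := [
  240, 49152, 1050624, 0, 851969, 2097153, 34144257, 167837697, 16384, 0, 0, 1073741828,
  33816576, 0, 258, 4294967298, 268435664, 0, 4112, 272629840, 4, 268435488, 134742016, 0, 0,
  268439744, 1073741824, 4194432, 36241408, 0, 67110912, 0, 32768]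

def rows2 : List ℕ := [
  3840, 983040, 0, 4194432, 0, 16777216, 0, 32776, 131073, 851969, 34144257, 2147811329, 0,
  1073741824, 0, 536871040, 3586, 258, 8391170, 1050114, 2148007936, 0, 8, 33816576, 268435488,
  8389632, 0, 0, 1090519040, 32768, 268443648, 1050624, 0]

def rowN (c j : ℕ) : ℕ :=
  match c with
  | 0 => rows0.getD j 0
  | 1 => rows1.getD j 0
  | _ => rows2.getD j 0

/-- the label with code `x` -/
def dg (x : ℕ) : Fin 3 → Fin 5 :=
  ![⟨x / 25 % 5, Nat.mod_lt _ (by norm_num)⟩, ⟨x / 5 % 5, Nat.mod_lt _ (by norm_num)⟩,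
    ⟨x % 5, Nat.mod_lt _ (by norm_num)⟩]

def lb (j : ℕ) : Fin 3 → Fin 5 := dg (labs.getD j 0)

/-- the colour of row `i` that is missing in row `i + 1` -/
def tt (x m y : Fin 3 → Fin 5) (i : Fin 3) : Fin 5 :=
  if x i ≠ x (i + 1) ∧ x i ≠ m (i + 1) ∧ x i ≠ y (i + 1) then x i
  else if m i ≠ x (i + 1) ∧ m i ≠ m (i + 1) ∧ m i ≠ y (i + 1) then m i
  else y i

theorem ok_check : ∀ c : Fin 3, ∀ j : Fin 33, ∀ k : Fin 33, (rowN c j).testBit k = true →
    ∀ i : Fin 3, Function.Injective ![lb j i, ml c i, lb k i, tt (lb j) (ml c) (lb k) (i + 1),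
      tt (lb j) (ml c) (lb k) (i + 2)] := by
  decide +kernel

/-- successors of a set of labels -/
def step (c m : ℕ) : ℕ :=
  (List.range 33).foldl (fun r j => if m.testBit j then r ||| rowN c j else r) 0

theorem foldl_bit (c m k : ℕ) : ∀ (l : List ℕ) (r : ℕ),
    (l.foldl (fun r j => if m.testBit j then r ||| rowN c j else r) r).testBit k = true →
    r.testBit k = true ∨ ∃ j ∈ l, m.testBit j = true ∧ (rowN c j).testBit k = true := by
  intro l
  induction l with
  | nil => intro r h; exact Or.inl h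
  | cons a l ih =>
    intro r h
    rw [List.foldl_cons] at h
    rcases ih _ h with h1 | ⟨j, hj, h1, h2⟩
    · by_cases ha : m.testBit a = true
      · rw [if_pos ha, Nat.testBit_or, Bool.or_eq_true] at h1
        rcases h1 with h1 | h1
        · exact Or.inl h1
        · exact Or.inr ⟨a, List.mem_cons_self, ha, h1⟩
      · rw [if_neg ha] at h1
        exact Or.inl h1
    · exact Or.inr ⟨j, List.mem_cons_of_mem _ hj, h1, h2⟩

theorem step_bit {c m k : ℕ} (h : (step c m).testBit k = true) :
    ∃ j < 33, m.testBit j = true ∧ (rowN c j).testBit k = true := by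
  rcases foldl_bit c m k _ _ h with h1 | ⟨j, hj, h1, h2⟩
  · simp at h1
  · exact ⟨j, List.mem_range.1 hj, h1, h2⟩

theorem path (c : ℕ → Fin 3) (x0 : ℕ) (m : ℕ → ℕ) (h0 : m 0 = 2 ^ x0)
    (hs : ∀ n, m (n + 1) = step (c n) (m n)) : ∀ n k, (m n).testBit k = true →
    ∃ s : ℕ → ℕ, s 0 = x0 ∧ s n = k ∧
      ∀ i < n, s i < 33 ∧ (rowN (c i) (s i)).testBit (s (i + 1)) = true := by
  intro n
  induction n with
  | zero =>
    intro k hk
    rw [h0, Nat.testBit_two_pow] at hk
    have hk' : x0 = k := by simpa using hk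
    exact ⟨fun _ => x0, rfl, hk', fun i hi => absurd hi (Nat.not_lt_zero _)⟩
  | succ n ih =>
    intro k hk
    rw [hs] at hk
    obtain ⟨j, hj, h1, h2⟩ := step_bit hk
    obtain ⟨s, s0, sn, sp⟩ := ih j h1
    refine ⟨fun i => if i ≤ n then s i else k, by simp [s0], by simp, ?_⟩
    intro i hi
    rcases Nat.lt_succ_iff_lt_or_eq.1 hi with h | h
    · have e1 : i ≤ n := h.le
      have e2 : i + 1 ≤ n := h
      simp only [e1, e2, if_true]
      exact sp i h
    · subst h
      simp only [le_refl, if_true, sn]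
      have : ¬ i + 1 ≤ i := by omega
      simp only [this, if_false]
      exact ⟨hj, h2⟩

/-- the states (reachable labels from the two starting labels, sum, length) -/
def T : List (ℕ × ℕ × ℕ × ℕ) := [
  (1, 2, 0, 0), (12, 12480, 1, 1), (240, 49152, 2, 1), (3840, 983040, 3, 1),
  (2228225, 4370468354, 0, 2), (1050624, 168624129, 3, 2), (4194432, 1073774600, 2, 2),
  (75501058, 2148007936, 3, 2), (170721281, 4294967554, 0, 2), (16809992, 536871040, 1, 2),
  (805310672, 16793604, 2, 2), (1073758212, 272634064, 1, 2), (2182021121, 9441026, 0, 2),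
  (12, 805318864, 1, 3), (268435696, 1073790980, 2, 3), (3842, 2182021121, 3, 3),
  (805310528, 16793612, 2, 3), (1073741828, 272634096, 1, 3), (2148335617, 9441026, 0, 3),
  (75497986, 2097153, 3, 3), (168361985, 4362078210, 0, 3), (32776, 809508992, 1, 3),
  (805318864, 16793600, 2, 3), (1073790980, 272629840, 1, 3), (2182021121, 1052162, 0, 3),
  (16793612, 268447936, 1, 3), (272634096, 49152, 2, 3), (9441026, 983041, 3, 3),
  (136839169, 75500034, 0, 3), (4294967298, 167837697, 3, 3), (809500832, 32776, 2, 3),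
  (4370468354, 2282356737, 3, 3), (170721281, 1050882, 0, 3), (1090551816, 268435488, 1, 3),
  (2148139009, 4370468354, 0, 3), (68159746, 170721281, 3, 3), (268443648, 1090551816, 2, 3),
  (16793612, 805318864, 1, 3), (272634096, 1073790980, 2, 3), (9441026, 2182021121, 3, 3),
  (2228225, 4370468354, 0, 3), (1050624, 170721281, 3, 3), (4194432, 1090551816, 2, 3),
  (4370468354, 2148139009, 3, 3), (170721281, 4363127042, 0, 3), (1090551816, 805314688, 1, 3),
  (805318864, 16793612, 2, 3), (1073790980, 272634096, 1, 3), (2182021121, 9441026, 0, 3),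
  (4370468354, 2284453889, 3, 3), (36503553, 1050882, 0, 3), (1090551808, 272629920, 1, 3),
  (131073, 4370468354, 0, 3), (68159488, 170721281, 3, 3), (805318864, 12, 2, 3),
  (1073790976, 268435696, 1, 3), (34537473, 3840, 0, 3), (16793612, 805318848, 1, 3),
  (9441026, 2148466689, 3, 3), (2097153, 4370467330, 0, 3), (4294967298, 170459137, 3, 3),
  (541065344, 1090551816, 2, 3), (4370468354, 2282225664, 3, 3), (170721281, 258, 0, 3),
  (2148139009, 4303359490, 0, 3), (4363127042, 170721281, 3, 3), (805314688, 1090519048, 2, 3),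
  (2284453889, 4370468354, 0, 3), (1050882, 170721281, 3, 3), (272629920, 1090551816, 2, 3),
  (4370468354, 2148007936, 3, 3), (170721281, 4294967554, 0, 3), (1090551816, 536871040, 1, 3),
  (272630000, 1073790980, 2, 3), (1052418, 2182021121, 3, 3), (268447936, 16777228, 2, 3),
  (49152, 272634096, 1, 3), (983040, 8392450, 0, 3), (4370467330, 2097153, 3, 3),
  (170459137, 4294967298, 0, 3), (1090551816, 541065344, 1, 3), (1073790980, 272630000, 1, 3),
  (2182021121, 1052418, 0, 3), (136839169, 4303358464, 0, 3), (4362078210, 36241409, 3, 3),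
  (809509024, 1090519040, 2, 3), (805318848, 16793612, 2, 3), (2148466689, 9441026, 0, 3),
  (4303358466, 136839169, 3, 3), (36241408, 4362078210, 0, 3), (1090519040, 809509024, 1, 3),
  (75497986, 136839169, 3, 3), (32776, 809509024, 1, 3), (136839169, 4370467330, 0, 3),
  (4362078210, 170459137, 3, 3), (809509024, 1090551816, 2, 3), (1090551816, 272629920, 1, 3),
  (805314688, 1090551816, 2, 3), (134742016, 4370467330, 0, 3), (805314720, 1090551816, 2, 3),
  (240, 1073790980, 2, 3), (805310656, 16793612, 2, 3), (4370468354, 2228225, 3, 3),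
  (170721281, 1050624, 0, 3), (1090551816, 4194432, 1, 3), (2148007936, 4370468354, 0, 3),
  (4362078466, 170721281, 3, 3), (16793612, 805310672, 1, 3), (272634096, 1073758212, 2, 3),
  (3840, 2182021121, 3, 3), (268447936, 16793612, 2, 3), (983040, 9441026, 0, 3),
  (75500034, 136839169, 3, 3), (1073790980, 272629968, 1, 3), (16793612, 12480, 1, 3),
  (4370467330, 136839169, 3, 3), (170459137, 67110912, 0, 3), (1090551816, 272638112, 1, 3),
  (170459137, 4362078210, 0, 3), (1090551816, 809509024, 1, 3), (4362078210, 167837697, 3, 3),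
  (809509024, 32776, 2, 3), (4370468354, 136970241, 3, 3), (4294967554, 170721281, 3, 3),
  (536871040, 1090551816, 2, 3), (16793604, 805318864, 1, 3), (272634064, 1073790980, 2, 3),
  (1073790980, 268435696, 1, 3), (2182021121, 3840, 0, 3), (9441026, 983040, 3, 3),
  (4362078210, 168361985, 3, 3), (272630000, 1073774596, 2, 3), (1052418, 2181890049, 3, 3),
  (4370467330, 134742016, 3, 3), (1090551816, 268443680, 1, 3), (16793608, 805318848, 1, 3),
  (9440770, 2148466689, 3, 3), (67110912, 170459137, 3, 3), (268443680, 1090551816, 2, 3),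
  (1073790976, 272630000, 1, 3), (34537473, 1052418, 0, 3), (16793600, 805318864, 1, 3),
  (272629968, 1073790980, 2, 3), (1050114, 2182021121, 3, 3), (75501058, 2148139009, 3, 3),
  (16809992, 805314688, 1, 3), (2182021121, 3842, 0, 3), (16793612, 805310528, 1, 3),
  (272634096, 1073741828, 2, 3), (9441026, 2148335617, 3, 3), (136839169, 75497986, 0, 3),
  (272629840, 1073790980, 2, 3), (1052162, 2182021121, 3, 3), (170721281, 68159746, 0, 3),
  (1090551816, 268443648, 1, 3), (805310672, 16793612, 2, 3), (1073758212, 272634096, 1, 3),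
  (1050882, 168624129, 3, 3), (272629920, 1073774600, 2, 3), (16793612, 805310656, 1, 3),
  (9441026, 2147811329, 3, 3), (805318848, 16777228, 2, 3), (2148466689, 8392450, 0, 3),
  (983041, 9441026, 0, 3), (167837697, 4362078210, 0, 3), (2282356737, 4370468354, 0, 3),
  (268435488, 1090551816, 2, 3), (805318864, 16793604, 2, 3), (1073790980, 272634064, 1, 3),
  (4370468354, 131073, 3, 3), (170721281, 4363126786, 0, 3), (2182021121, 1050114, 0, 3),
  (136839169, 4303358466, 0, 3), (2284322817, 4370468354, 0, 3), (258, 170721281, 3, 3),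
  (2147811329, 9441026, 0, 3), (36241409, 4362078210, 0, 3), (2282225664, 4370468354, 0, 3),
  (268447952, 16793612, 2, 3), (49156, 272634096, 1, 3), (809500832, 1090551816, 2, 3),
  (1050882, 36503553, 3, 3), (272629920, 1090551808, 2, 3), (170721281, 68159488, 0, 3),
  (272630000, 1073790976, 2, 3), (1052418, 34537473, 3, 3), (4303359490, 2148139009, 3, 3),
  (1090519048, 805314688, 1, 3), (4362078210, 36241408, 3, 3), (1090551816, 809508992, 1, 3),
  (805318864, 16396, 2, 3), (1073790980, 268439792, 1, 3), (16777228, 805318848, 1, 3),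
  (8392450, 2148466689, 3, 3), (4303358464, 136839169, 3, 3), (1073790980, 240, 1, 3),
  (16793612, 268447952, 1, 3), (272634096, 49156, 2, 3), (12480, 16793612, 2, 3),
  (16396, 805318864, 1, 3), (268439792, 1073790980, 2, 3), (4296018178, 170721281, 3, 3),
  (1090551816, 805314720, 1, 3), (170721281, 4362078466, 0, 3), (272638112, 1090551816, 2, 3),
  (805318848, 16793608, 2, 3), (2148466689, 9440770, 0, 3), (4370468354, 2150236161, 3, 3),
  (136970241, 4370468354, 0, 3), (1073774596, 272630000, 1, 3), (2181890049, 1052418, 0, 3),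
  (2148139009, 75501058, 0, 3), (805314688, 16809992, 2, 3), (170721281, 4296018178, 0, 3),
  (168624129, 1050882, 0, 3), (1073774600, 272629920, 1, 3), (2150236161, 4370468354, 0, 3),
  (4370468354, 2284322817, 3, 3), (4363126786, 170721281, 3, 3), (1090551816, 809500832, 1, 3),
  (809508992, 1090551816, 2, 3)]

def nx (c : ℕ) (s : ℕ × ℕ × ℕ × ℕ) : ℕ × ℕ × ℕ × ℕ :=
  (step c s.1, step c s.2.1, s.2.2.1 ^^^ (c + 1), min (s.2.2.2 + 1) 3)

theorem T_closed : T.all (fun s => (List.range 3).all (fun c => T.contains (nx c s))) = true := by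
  decide +kernel

theorem T_good : T.all (fun s => !(s.2.2.1 == 0 && s.2.2.2 == 3) ||
    (s.1.testBit 0 || s.2.1.testBit 1)) = true := by
  decide +kernel

/-- the run of the automaton -/
def S (c : ℕ → Fin 3) : ℕ → ℕ × ℕ × ℕ × ℕ
  | 0 => (1, 2, 0, 0)
  | n + 1 => nx (c n) (S c n)

theorem S_mem (c : ℕ → Fin 3) (n : ℕ) : S c n ∈ T := by
  induction n with
  | zero => exact List.mem_cons_self
  | succ n ih =>
    have h1 := List.all_eq_true.1 T_closed _ ih
    have h2 := List.all_eq_true.1 h1 (c n : ℕ) (List.mem_range.2 (c n).2)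
    exact List.contains_iff_mem.1 h2

/-- the element of the Klein group with a given code -/
def kz (z : ℕ) : ZMod 2 × ZMod 2 := (((z % 2 : ℕ) : ZMod 2), ((z / 2 % 2 : ℕ) : ZMod 2))

theorem kz_xor : ∀ z < 4, ∀ c : Fin 3, (z ^^^ ((c : ℕ) + 1)) < 4 ∧
    kz (z ^^^ ((c : ℕ) + 1)) = kz z + kv c := by
  decide

theorem kz_zero : ∀ z < 4, kz z = 0 → z = 0 := by
  decide

theorem S_sum (c : ℕ → Fin 3) (n : ℕ) :
    (S c n).2.2.1 < 4 ∧ kz (S c n).2.2.1 = ∑ i ∈ range n, kv (c i) := by
  induction n with
  | zero => exact ⟨by show (0 : ℕ) < 4; norm_num, by simp [S, kz]⟩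
  | succ n ih =>
    have h := kz_xor _ ih.1 (c n)
    refine ⟨h.1, ?_⟩
    rw [Finset.sum_range_succ, ← ih.2]
    exact h.2

theorem S_len (c : ℕ → Fin 3) (n : ℕ) : (S c n).2.2.2 = min n 3 := by
  induction n with
  | zero => rfl
  | succ n ih =>
    have : (S c (n + 1)).2.2.2 = min ((S c n).2.2.2 + 1) 3 := rfl
    rw [this, ih]
    omega

theorem finish (n : ℕ) (c : ℕ → Fin 3) (x0 : ℕ) (hx : x0 < 33) (m : ℕ → ℕ) (h0 : m 0 = 2 ^ x0)
    (hs : ∀ n, m (n + 1) = step (c n) (m n)) (h : (m n).testBit x0 = true) :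
    ∃ s : ℕ → Fin 3 → Fin 5, s n = s 0 ∧ ∀ i < n, Ok (s i) (ml (c i)) (s (i + 1)) := by
  obtain ⟨s, s0, sn, sp⟩ := path c x0 m h0 hs n x0 h
  refine ⟨fun i => lb (s i), by simp only [s0, sn], ?_⟩
  intro i hi
  have h1 := sp i hi
  have h2 : s (i + 1) < 33 := by
    rcases Nat.lt_or_ge (i + 1) n with h3 | h3
    · exact (sp _ h3).1
    · have : i + 1 = n := by omega
      rw [this, sn]; exact hx
  exact ⟨_, ok_check (c i) ⟨s i, h1.1⟩ ⟨s (i + 1), h2⟩ h1.2⟩

end Aut

open Finset

/-- TASK AUT -/
theorem taskAut : TaskAut := by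
  intro n c hn hsum
  have h1 := Aut.S_mem c n
  have h2 := List.all_eq_true.1 Aut.T_good _ h1
  have h3 : (Aut.S c n).2.2.1 = 0 := by
    apply Aut.kz_zero _ (Aut.S_sum c n).1
    rw [(Aut.S_sum c n).2, hsum]
  have h4 : (Aut.S c n).2.2.2 = 3 := by
    rw [Aut.S_len]; omega
  rw [h3, h4] at h2
  have h5 : (Aut.S c n).1.testBit 0 = true ∨ (Aut.S c n).2.1.testBit 1 = true := by
    simpa using h2
  rcases h5 with h5 | h5
  · exact Aut.finish n c 0 (by norm_num) (fun n => (Aut.S c n).1) rfl (fun n => rfl) h5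
  · exact Aut.finish n c 1 (by norm_num) (fun n => (Aut.S c n).2.1) rfl (fun n => rfl) h5

end Pool.Agent.H149R3.GK
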