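import Pool.Agent.H149R3.GK.Stmts

set_option autoImplicit false

namespace Pool.Agent.H149R3.GK.LabH407

open Finset Pool.Agent.H149R3.GK

lemma Ok.symm {x m y : Fin 3 → Fin 5} (h : Ok x m y) : Ok y m x := by
  obtain ⟨t, ht⟩ := h
  refine ⟨t, fun i => ?_⟩
  have e : ![y i, m i, x i, t (i + 1), t (i + 2)] =
      ![x i, m i, y i, t (i + 1), t (i + 2)] ∘ (Equiv.swap (0 : Fin 5) 2) := by
    funext j
    fin_cases j <;> simp [Equiv.swap_apply_def]
  rw [e]
  exact (ht i).comp (Equiv.injective _)

lemma step_inj {V : Type} {n : ℕ} {f : ℕ → V} (hn : 3 ≤ n) (h0 : f n = f 0)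
    (hinj : ∀ i < n, ∀ j < n, f i = f j → i = j) {i j : ℕ} (hi : i < n) (hj : j < n)
    (h : f (i + 1) = f (j + 1)) : i = j := by
  rcases Nat.lt_or_ge (i + 1) n with h1 | h1 <;> rcases Nat.lt_or_ge (j + 1) n with h2 | h2
  · have := hinj _ h1 _ h2 h
    omega
  · have e : j + 1 = n := by omega
    rw [e, h0] at h
    have := hinj _ h1 0 (by omega) h
    omega
  · have e : i + 1 = n := by omega
    rw [e, h0] at h
    have := hinj 0 (by omega) _ h2 h
    omega
  · omega

lemma step_val {V A : Type} {n : ℕ} {f : ℕ → V} {s : ℕ → A} (hn : 3 ≤ n) (h0 : f n = f 0)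
    (hs : s n = s 0) (hinj : ∀ i < n, ∀ j < n, f i = f j → i = j) {i j : ℕ} (hi : i < n)
    (hj : j < n) (h : f (i + 1) = f j) : s (i + 1) = s j := by
  rcases Nat.lt_or_ge (i + 1) n with h1 | h1
  · rw [hinj _ h1 _ hj h]
  · have e : i + 1 = n := by omega
    rw [e, h0] at h
    have := hinj 0 (by omega) _ hj h
    rw [e, hs, ← this]

lemma step_step {V : Type} {n : ℕ} {f : ℕ → V} (hn : 3 ≤ n) (h0 : f n = f 0)
    (hinj : ∀ i < n, ∀ j < n, f i = f j → i = j) {i j : ℕ} (hi : i < n) (hj : j < n)
    (h : f (i + 1) = f j) (h' : f (j + 1) = f i) : False := by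
  rcases Nat.lt_or_ge (i + 1) n with h1 | h1
  · have e1 := hinj _ h1 _ hj h
    subst e1
    rcases Nat.lt_or_ge (i + 1 + 1) n with h2 | h2
    · have := hinj _ h2 _ hi h'
      omega
    · have e : i + 1 + 1 = n := by omega
      rw [e, h0] at h'
      have := hinj 0 (by omega) _ hi h'
      omega
  · have e : i + 1 = n := by omega
    rw [e, h0] at h
    have e2 := hinj 0 (by omega) _ hj h
    subst e2
    have := hinj 1 (by omega) _ hi h'
    omega

theorem taskLab : TaskLab := by
  classical
  intro hAut hCyc V _ _ F _ hdeg c hsum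
  choose n f hn h0 hinj hadj hcomp using hCyc V F hdeg
  have hs : ∀ K : F.ConnectedComponent, ∃ s : ℕ → Fin 3 → Fin 5, s (n K) = s 0 ∧
      ∀ i < n K, Ok (s i) (ml (c (f K i))) (s (i + 1)) := by
    intro K
    refine hAut (n K) (fun i => c (f K i)) (hn K) ?_
    have h1 := hsum K
    rw [← Finset.sum_filter] at h1
    have e : Finset.univ.filter (fun v => F.connectedComponentMk v = K) =
        (Finset.range (n K)).image (f K) := by
      ext v
      rw [Finset.mem_filter, Finset.mem_image, hcomp K v]
      simp
    rw [e, Finset.sum_image] at h1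
    · exact h1
    · intro i hi j hj hij
      rw [Finset.mem_coe, Finset.mem_range] at hi hj
      exact hinj K i hi j hj hij
  choose s hs0 hsOk using hs
  have hidx : ∀ v : V, ∃ i < n (F.connectedComponentMk v), f (F.connectedComponentMk v) i = v :=
    fun v => (hcomp _ v).mp rfl
  choose idx hidx1 hidx2 using hidx
  set nx : V → V := fun v => f (F.connectedComponentMk v) (idx v + 1) with hnx
  set S : V → Fin 3 → Fin 5 := fun v => s (F.connectedComponentMk v) (idx v + 1) with hS
  have hA : ∀ v, F.Adj v (nx v) := by
    intro v
    have := hadj _ _ (hidx1 v)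
    rw [hidx2 v] at this
    exact this
  have hK : ∀ v, F.connectedComponentMk (nx v) = F.connectedComponentMk v := fun v =>
    SimpleGraph.ConnectedComponent.sound (hA v).symm.reachable
  have hstep : ∀ v w, nx v = w → F.connectedComponentMk w = F.connectedComponentMk v := by
    intro v w h
    rw [← h]; exact hK v
  have hinjx : ∀ v w, nx v = nx w → v = w := by
    intro v w h
    have e : F.connectedComponentMk v = F.connectedComponentMk w := by
      rw [← hK v, h, hK w]
    have h1 : f (F.connectedComponentMk v) (idx v + 1) =
        f (F.connectedComponentMk v) (idx w + 1) := by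
      have : nx w = f (F.connectedComponentMk v) (idx w + 1) := by rw [hnx, e]
      rw [← this, ← h]
    have h2 := step_inj (hn _) (h0 _) (hinj _) (hidx1 v) (by rw [e]; exact hidx1 w) h1
    rw [← hidx2 v, ← hidx2 w, h2, e]
  have hval : ∀ v w, nx w = v → S w = s (F.connectedComponentMk v) (idx v) := by
    intro v w h
    have e := hstep w v h
    have h1 : f (F.connectedComponentMk w) (idx w + 1) = f (F.connectedComponentMk w) (idx v) := by
      have h3 : nx w = f (F.connectedComponentMk w) (idx w + 1) := rfl
      rw [← h3, h, ← e, hidx2 v]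
    have h2 := step_val (s := s (F.connectedComponentMk w)) (hn _) (h0 _) (hs0 _) (hinj _)
      (hidx1 w) (by rw [← e]; exact hidx1 v) h1
    show s (F.connectedComponentMk w) (idx w + 1) = _
    rw [h2, e]
  have hnn : ∀ v, nx (nx v) ≠ v := by
    intro v h
    have e := hK v
    have h1 : f (F.connectedComponentMk v) (idx v + 1) =
        f (F.connectedComponentMk v) (idx (nx v)) := by
      have h3 := hidx2 (nx v)
      rw [e] at h3
      rw [h3]
    have h2 : f (F.connectedComponentMk v) (idx (nx v) + 1) =
        f (F.connectedComponentMk v) (idx v) := by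
      rw [hidx2 v]
      have h3 : nx (nx v) = f (F.connectedComponentMk (nx v)) (idx (nx v) + 1) := rfl
      rw [e] at h3
      rw [← h3, h]
    have h4 := hidx1 (nx v)
    rw [e] at h4
    exact step_step (hn _) (h0 _) (hinj _) (hidx1 v) h4 h1 h2
  have hsurj : Function.Surjective nx :=
    (Finite.injective_iff_surjective).mp (fun v w h => hinjx v w h)
  have hnb : ∀ v w, F.Adj v w → w = nx v ∨ nx w = v := by
    intro v w hvw
    obtain ⟨p, hp⟩ := hsurj v
    have hpv : F.Adj v p := by
      have := hA p
      rw [hp] at this
      exact this.symm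
    have hne : nx v ≠ p := by
      intro h
      apply hnn v
      rw [h, hp]
    have h1 : ({nx v, p} : Finset V) ⊆ F.neighborFinset v := by
      intro x hx
      rw [Finset.mem_insert, Finset.mem_singleton] at hx
      rw [SimpleGraph.mem_neighborFinset]
      rcases hx with rfl | rfl
      · exact hA v
      · exact hpv
    have h2 : ({nx v, p} : Finset V) = F.neighborFinset v := by
      refine Finset.eq_of_subset_of_card_le h1 ?_
      rw [SimpleGraph.card_neighborFinset_eq_degree, hdeg v, Finset.card_pair hne]
    have h3 : w ∈ ({nx v, p} : Finset V) := by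
      rw [h2, SimpleGraph.mem_neighborFinset]
      exact hvw
    rw [Finset.mem_insert, Finset.mem_singleton] at h3
    rcases h3 with h3 | h3
    · exact Or.inl h3
    · right; rw [h3]; exact hp
  refine ⟨fun u w => if w = nx u then S u else S w, ?_, ?_⟩
  · intro u w huw
    show (if w = nx u then S u else S w) = (if u = nx w then S w else S u)
    by_cases h1 : w = nx u
    · have h2 : u ≠ nx w := by
        intro h
        apply hnn u
        rw [← h1, ← h]
      rw [if_pos h1, if_neg h2]
    · have h2 : u = nx w := by
        rcases hnb u w huw with h | h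
        · exact absurd h h1
        · exact h.symm
      rw [if_neg h1, if_pos h2]
  · intro v u w hvu hvw huw
    show Ok (if u = nx v then S v else S u) (ml (c v)) (if w = nx v then S v else S w)
    have hok : Ok (s (F.connectedComponentMk v) (idx v)) (ml (c v)) (S v) := by
      have := hsOk _ _ (hidx1 v)
      rw [hidx2 v] at this
      exact this
    by_cases h1 : u = nx v
    · have h2 : w ≠ nx v := fun h => huw (by rw [h1, h])
      have h3 : nx w = v := by
        rcases hnb v w hvw with h | h
        · exact absurd h h2
        · exact h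
      rw [if_pos h1, if_neg h2, hval v w h3]
      exact Ok.symm hok
    · have h3 : nx u = v := by
        rcases hnb v u hvu with h | h
        · exact absurd h h1
        · exact h
      have h2 : w = nx v := by
        rcases hnb v w hvw with h | h
        · exact h
        · exact absurd (hinjx u w (by rw [h3, h])) huw
      rw [if_neg h1, if_pos h2, hval v u h3]
      exact hok

end Pool.Agent.H149R3.GK.LabH407
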