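import Mathlib

set_option autoImplicit false

/-!
# Project: the product of a bridgeless cubic graph with a triangle is 1-factorizable
(MP_b918dd_co, S11031)

An edge `e` of `G` gets a label `Fin 3 → Fin 5`, the colours of its three copies. A perfect
matching `mt` meets every 3-edge-cut exactly once, its edges get the labels `(4, 3, c)` with `c` a
nowhere-zero flow over the Klein four group of the graph obtained by contracting the circuits of
`G` minus the matching. A finite automaton completes the labels along every circuit.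
-/

namespace Pool.Agent.H149R3.GK

open Finset

/-- The labels `x, m, y` of the three edges at a vertex `v` are compatible: `t i` is the colour of
the edge of the triangle of `v` opposite to the vertex `i`. -/
def Ok (x m y : Fin 3 → Fin 5) : Prop :=
  ∃ t : Fin 3 → Fin 5, ∀ i : Fin 3, Function.Injective ![x i, m i, y i, t (i + 1), t (i + 2)]

/-- label of a matching edge with value `c` -/
def ml (c : Fin 3) : Fin 3 → Fin 5 := ![4, 3, Fin.castLE (by norm_num) c]

/-- the value `c` as a nonzero element of the Klein four group -/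
def kv (c : Fin 3) : ZMod 2 × ZMod 2 := ![(1, 0), (0, 1), (1, 1)] c

/-- number of edges (with ends `a e`, `b e`) of `M` leaving the vertex set `S` -/
def cross {V E : Type} [DecidableEq V] (a b : E → V) (M : Finset E) (S : Finset V) : ℕ :=
  (M.filter (fun e => ¬ (a e ∈ S ↔ b e ∈ S))).card

/-- TASK AUT: completion along a circuit. -/
def TaskAut : Prop :=
  ∀ (n : ℕ) (c : ℕ → Fin 3), 3 ≤ n → ∑ i ∈ range n, kv (c i) = 0 →
    ∃ s : ℕ → Fin 3 → Fin 5, s n = s 0 ∧ ∀ i < n, Ok (s i) (ml (c i)) (s (i + 1))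

/-- TASK PM: a perfect matching meeting every 3-edge-cut in exactly one edge. -/
def TaskPM : Prop :=
  ∀ (V E : Type) [Fintype V] [DecidableEq V] [Fintype E] [DecidableEq E] (a b : E → V),
    (∀ e, a e ≠ b e) → (∀ v : V, cross a b univ {v} = 3) →
    (∀ S : Finset V, cross a b univ S ≠ 1) →
    ∃ M : Finset E, (∀ v : V, cross a b M {v} = 1) ∧
      ∀ S : Finset V, cross a b univ S = 3 → cross a b M S = 1

/-- TASK CYC: the components of a 2-regular graph are circuits. -/
def TaskCyc : Prop :=
  ∀ (V : Type) [Fintype V] [DecidableEq V] (F : SimpleGraph V) [DecidableRel F.Adj],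
    (∀ v, F.degree v = 2) → ∀ K : F.ConnectedComponent,
    ∃ (n : ℕ) (f : ℕ → V), 3 ≤ n ∧ f n = f 0 ∧ (∀ i < n, ∀ j < n, f i = f j → i = j) ∧
      (∀ i < n, F.Adj (f i) (f (i + 1))) ∧ (∀ v, F.connectedComponentMk v = K ↔ ∃ i < n, f i = v)

open Classical in
/-- conclusion of TASK LAB -/
def Lab : Prop :=
  ∀ (V : Type) [Fintype V] [DecidableEq V] (F : SimpleGraph V) [DecidableRel F.Adj],
    (∀ v, F.degree v = 2) → ∀ c : V → Fin 3,
    (∀ K : F.ConnectedComponent,
      ∑ v : V, (if F.connectedComponentMk v = K then kv (c v) else 0) = 0) →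
    ∃ L : V → V → Fin 3 → Fin 5, (∀ u w, F.Adj u w → L u w = L w u) ∧
      ∀ v u w, F.Adj v u → F.Adj v w → u ≠ w → Ok (L v u) (ml (c v)) (L v w)

/-- TASK LAB: the labels of the edges of a 2-regular graph. -/
def TaskLab : Prop := TaskAut → TaskCyc → Lab

/-- the graph `G` without the edges `v (mt v)` -/
def Fg {V : Type} (G : SimpleGraph V) (mt : V → V) : SimpleGraph V where
  Adj u v := G.Adj u v ∧ v ≠ mt u ∧ u ≠ mt v
  symm := ⟨fun _ _ h => ⟨h.1.symm, h.2.2, h.2.1⟩⟩
  loopless := ⟨fun _ h => h.1.ne rfl⟩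

open Classical in
/-- conclusion of TASK FLOW -/
def Flow : Prop :=
  ∀ (V : Type) [Fintype V] [DecidableEq V] (G : SimpleGraph V) [DecidableRel G.Adj],
    G.IsRegularOfDegree 3 → (∀ e : Sym2 V, ¬ G.IsBridge e) →
    ∃ (mt : V → V) (c : V → Fin 3), (∀ v, G.Adj v (mt v)) ∧ (∀ v, mt (mt v) = v) ∧
      (∀ v, c (mt v) = c v) ∧ ∀ K : (Fg G mt).ConnectedComponent,
        ∑ v : V, (if (Fg G mt).connectedComponentMk v = K then kv (c v) else 0) = 0

/-- TASK FLOW: the matching and the flow. -/
def TaskFlow : Prop := TaskPM → Flow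

/-- the final statement (frozen statement S11031) -/
def Goal : Prop :=
  ∀ (V : Type) [Fintype V] [DecidableEq V] (G : SimpleGraph V) [DecidableRel G.Adj],
      G.IsRegularOfDegree 3 →
      (∀ e : Sym2 V, ¬ G.IsBridge e) →
      ∃ (k : ℕ) (M : Fin k → (SimpleGraph.boxProd G (⊤ : SimpleGraph (Fin 3))).Subgraph),
        (∀ i, (M i).IsPerfectMatching) ∧
        ∀ e ∈ (SimpleGraph.boxProd G (⊤ : SimpleGraph (Fin 3))).edgeSet,
          ∃! i, e ∈ (M i).edgeSet

/-- TASK FIN: assembly. -/
def TaskFin : Prop := Lab → Flow → Goal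

theorem final (h1 : TaskAut) (h2 : TaskPM) (h3 : TaskCyc) (h4 : TaskLab) (h5 : TaskFlow)
    (h6 : TaskFin) : Goal := h6 (h4 h1 h3) (h5 h2)

end Pool.Agent.H149R3.GK
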